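import Pool.Agent.K3h5.IB.Stm

/-! # Iterated biased random walks: the final step of the deterministic part -/

set_option autoImplicit false

open MeasureTheory Filter Topology

namespace Pool.Agent.K3h3.IB

open Pool.Agent.K3h5.IB

theorem lip (y : ℕ → ℤ) (hy : ∀ n, |y (n + 1) - y n| ≤ 1) (a k : ℕ) :
    |y (a + k) - y a| ≤ k := by
  induction k with
  | zero => simp
  | succ k ih =>
    have h1 := hy (a + k)
    have h2 : y (a + (k + 1)) - y a = (y (a + k + 1) - y (a + k)) + (y (a + k) - y a) := by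
      rw [← add_assoc]; ring
    rw [h2]
    refine (abs_add_le _ _).trans ?_
    push_cast
    linarith

theorem est (w z n t t' k : ℝ) (ht : 0 < t) (hk : 0 ≤ k) (hn : n = t + k) (hkt : k ≤ t' - t)
    (hw : |w - z| ≤ k) : |w / n - z / t| ≤ (t' / t - 1) * (1 + |z / t|) := by
  have hn0 : 0 < n := by linarith
  have e1 : w / n - z / t = (w - z) / n - z / t * (k / n) := by
    have e2 : k = n - t := by linarith
    rw [e2]
    field_simp
    ring
  rw [e1]
  have e3 : k / n ≤ t' / t - 1 := by
    have e4 : t' / t - 1 = (t' - t) / t := by field_simp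
    rw [e4]
    exact div_le_div₀ (by linarith) hkt ht (by linarith)
  have e5 : |(w - z) / n| ≤ t' / t - 1 := by
    rw [abs_div, abs_of_pos hn0]
    exact (div_le_div_of_nonneg_right hw hn0.le).trans e3
  have e6 : |z / t * (k / n)| ≤ (t' / t - 1) * |z / t| := by
    rw [abs_mul, abs_of_nonneg (by positivity : (0 : ℝ) ≤ k / n), mul_comm]
    exact mul_le_mul_of_nonneg_right e3 (abs_nonneg _)
  calc |(w - z) / n - z / t * (k / n)| ≤ |(w - z) / n| + |z / t * (k / n)| := abs_sub _ _
    _ ≤ (t' / t - 1) + (t' / t - 1) * |z / t| := add_le_add e5 e6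
    _ = (t' / t - 1) * (1 + |z / t|) := by ring

theorem t_DF : S_DF := by
  intro y P c T D Λ hc hT hy hP hyT hk hPD hcc hΛ hlim
  obtain ⟨κ, hκ⟩ : ∃ κ, κ = (Λ⁻¹).toReal := ⟨_, rfl⟩
  rw [← hκ]
  have hc1 : ∀ m, 1 ≤ m → (0 : ℝ) < c m := fun m hm => by
    exact_mod_cast lt_of_lt_of_le (by omega : 0 < m) hc.le_apply
  have hT1 : ∀ m, 1 ≤ m → (0 : ℝ) < T m := fun m hm => by
    exact_mod_cast lt_of_lt_of_le (by omega : 0 < m) hT.le_apply
  have h1 : Tendsto (fun m => (c m : ℝ) / (T m : ℝ)) atTop (𝓝 κ) := by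
    have a1 := ENNReal.tendsto_inv_iff.2 hlim
    have a2 := (ENNReal.tendsto_toReal (ENNReal.inv_ne_top.2 hΛ)).comp a1
    rw [← hκ] at a2
    refine a2.congr fun m => ?_
    simp only [Function.comp, ENNReal.toReal_inv, ENNReal.toReal_div, ENNReal.toReal_natCast,
      inv_div]
  have h2 : Tendsto (fun m => (c (m + 1) : ℝ) / (c m : ℝ)) atTop (𝓝 1) := by
    have a1 := hcc.inv₀ one_ne_zero
    rw [inv_one] at a1
    refine a1.congr fun m => ?_
    rw [inv_div]
  have h3 : Tendsto (fun m => (y (T m) : ℝ) / (T m : ℝ)) atTop (𝓝 (κ * D)) := by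
    have a1 := hPD.comp hc.tendsto_atTop
    refine (h1.mul a1).congr' ?_
    filter_upwards [eventually_ge_atTop 1] with m hm
    have := (hc1 m hm).ne'
    have := (hT1 m hm).ne'
    simp only [Function.comp]
    rw [hyT]
    field_simp
  obtain ⟨M, hM⟩ : ∃ M : ℕ → ℕ, ∀ n, M n = Nat.findGreatest (fun m => T m ≤ n) n :=
    ⟨fun n => Nat.findGreatest (fun m => T m ≤ n) n, fun _ => rfl⟩
  have hM1 : ∀ n, T 0 ≤ n → T (M n) ≤ n := by
    intro n hn
    rw [hM]
    exact Nat.findGreatest_spec (P := fun m => T m ≤ n) (Nat.zero_le n) hn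
  have hM4 : ∀ m n, T m ≤ n → m ≤ M n := by
    intro m n h
    rw [hM]
    exact Nat.le_findGreatest (hT.le_apply.trans h) h
  have hM2 : ∀ n, n < T (M n + 1) := by
    intro n
    by_contra h
    have := hM4 (M n + 1) n (not_lt.1 h)
    omega
  have hM3 : Tendsto M atTop atTop := by
    rw [tendsto_atTop]
    intro K
    filter_upwards [eventually_ge_atTop (T K)] with n hn
    exact hM4 K n hn
  by_cases h0 : κ = 0
  · rw [h0, zero_mul]
    have a1 : Tendsto (fun m => (c (m + 1) : ℝ) / (T m : ℝ)) atTop (𝓝 0) := by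
      have a2 := h2.mul h1
      rw [h0, mul_zero] at a2
      refine a2.congr' ?_
      filter_upwards [eventually_ge_atTop 1] with m hm
      have := (hc1 m hm).ne'
      field_simp
    refine squeeze_zero_norm' ?_ (a1.comp hM3)
    filter_upwards [eventually_ge_atTop (T 1)] with n hn
    have b0 : 1 ≤ M n := hM4 1 n hn
    have b1 : T (M n) ≤ n := hM1 n ((hT.monotone (by omega)).trans hn)
    obtain ⟨k, hk1, hk2⟩ := hk (M n) n (hM2 n)
    have b2 : |(y n : ℝ)| ≤ c (M n + 1) := by
      have e1 := hP k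
      rw [← hk2] at e1
      have e2 : |y n| ≤ (c (M n + 1) : ℤ) := e1.trans (by exact_mod_cast hk1)
      exact_mod_cast e2
    rw [Real.norm_eq_abs, abs_div, Nat.abs_cast]
    simp only [Function.comp]
    have b3 : (T (M n) : ℝ) ≤ n := by exact_mod_cast b1
    exact div_le_div₀ (by positivity) b2 (hT1 _ b0) b3
  · have a1 : Tendsto (fun m => (T (m + 1) : ℝ) / (T m : ℝ)) atTop (𝓝 1) := by
      have a2 := ((h1.inv₀ h0).comp (tendsto_add_atTop_nat 1)).mul (h2.mul h1)
      rw [one_mul, inv_mul_cancel₀ h0] at a2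
      refine a2.congr' ?_
      filter_upwards [eventually_ge_atTop 1] with m hm
      have := (hc1 m hm).ne'
      have := (hT1 m hm).ne'
      have := (hc1 (m + 1) (by omega)).ne'
      simp only [Function.comp, inv_div]
      field_simp
    have a3 : Tendsto (fun m => ((T (m + 1) : ℝ) / (T m : ℝ) - 1) *
        (1 + |(y (T m) : ℝ) / (T m : ℝ)|)) atTop (𝓝 0) := by
      have a4 := (a1.sub_const 1).mul (h3.abs.const_add 1)
      rwa [sub_self, zero_mul] at a4
    have a5 : Tendsto (fun n => (y n : ℝ) / n - (y (T (M n)) : ℝ) / (T (M n) : ℝ)) atTop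
        (𝓝 0) := by
      refine squeeze_zero_norm' ?_ (a3.comp hM3)
      filter_upwards [eventually_ge_atTop (T 1)] with n hn
      have b0 : 1 ≤ M n := hM4 1 n hn
      have b1 : T (M n) ≤ n := hM1 n ((hT.monotone (by omega)).trans hn)
      have b2 := hM2 n
      obtain ⟨k, hk'⟩ := Nat.exists_eq_add_of_le b1
      have b3 := lip y hy (T (M n)) k
      rw [← hk'] at b3
      have b4 : |(y n : ℝ) - y (T (M n))| ≤ k := by exact_mod_cast b3
      have b5 : (n : ℝ) = T (M n) + k := by exact_mod_cast hk'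
      have b6 : (k : ℝ) ≤ T (M n + 1) - T (M n) := by
        have : (n : ℝ) ≤ T (M n + 1) := by exact_mod_cast b2.le
        linarith
      have b7 := hT1 _ b0
      have b8 : (0 : ℝ) < n := by
        rw [b5]; positivity
      simp only [Function.comp, Real.norm_eq_abs]
      exact est _ _ _ _ _ _ b7 (Nat.cast_nonneg k) b5 b6 b4
    have a6 := a5.add (h3.comp hM3)
    rw [zero_add] at a6
    refine a6.congr fun n => ?_
    simp only [Function.comp]
    ring

end Pool.Agent.K3h3.IB
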